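import Pool.Agent.Run7.h563.DM.D
import Pool.Agent.Run7.h563.DM.E

set_option autoImplicit false

/-!
# Discrete moments of the derivative of zeta are bounded by the continuous moments of zeta

Unconditionally, for every real order `b > 0` and in every Gaussian window of centre `T` and width `D`,
`B / √(log T) ≤ D ≤ T / log T`, the sum of `|ζ'(ρ)| ^ b` over the distinct zeros near the critical line is at most
`C (log T) ^ (b + 1)` times the integral of `|ζ(1/2 + it)| ^ b`. The exponent `b + 1` is the exact ratio of the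
conjectured orders `T (log T) ^ ((b / 2 + 1) ^ 2)` and `T (log T) ^ ((b / 2) ^ 2)`.
-/

open Complex MeasureTheory

namespace Pool.Agent.Results.MP_69b2e4_nt.BoundByMoments

/-- the Gaussian window of centre `T` and width `D` -/
noncomputable def window (T D t : ℝ) : ℝ := Real.exp (-((t - T) / D) ^ 2)

/-- the continuous moment of order `b` of zeta on the critical line in the window -/
noncomputable def moment (b T D : ℝ) : ℝ := ∫ t : ℝ, ‖riemannZeta (1 / 2 + t * I)‖ ^ b * window T D t

/-- the zeros of zeta at distance at most `A / log T` from the critical line, with ordinate in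
`[T / 2, 3 T / 2]` -/
def zeros (A T : ℝ) : Set ℂ :=
  {s : ℂ | riemannZeta s = 0 ∧ |s.re - 1 / 2| ≤ A / Real.log T ∧ T / 2 ≤ s.im ∧ s.im ≤ 3 * T / 2}

/-- the discrete moment of order `b` of the derivative, over distinct zeros, in the window -/
noncomputable def discrete (b A T D : ℝ) : ℝ :=
  ∑ᶠ s ∈ zeros A T, ‖deriv riemannZeta s‖ ^ b * window T D s.im

theorem zeros_finite {A T : ℝ} (hT : 0 < T) : (zeros A T).Finite := by
  refine (Run7.h563.DM.zeros_finite Q97.MM.Z1_differentiable Run7.h563.DM.Z1_ne (1 / 2)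
    (|A / Real.log T| + 3 * T / 2)).subset ?_
  rintro s ⟨h0, h1, h2, h3⟩
  refine ⟨?_, ?_⟩
  · rw [Metric.mem_closedBall, dist_eq_norm]
    refine (Complex.norm_le_abs_re_add_abs_im _).trans ?_
    have e1 : (s - 1 / 2).re = s.re - 1 / 2 := by simp
    have e2 : (s - 1 / 2).im = s.im := by simp
    rw [e1, e2, abs_of_pos (show 0 < s.im by linarith)]
    have := le_abs_self (A / Real.log T)
    linarith
  · have hne : s ≠ 1 := by
      rintro rfl
      simp at h2
      linarith
    rw [Q97.MM.Z1_of_ne hne, h0, mul_zero]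

theorem result : ∀ b A : ℝ, 0 < b → 0 ≤ A → ∃ C B T₀ : ℝ, 0 < C ∧ 0 < B ∧ 2 ≤ T₀ ∧
    ∀ T D : ℝ, T₀ ≤ T → 0 < D → B ≤ D ^ 2 * Real.log T → D ≤ T / Real.log T →
      discrete b A T D ≤ C * Real.log T ^ (b + 1) * moment b T D := by
  intro b A hb hA
  obtain ⟨C, B, T₀, hC, hB, hT₀, h⟩ := Run7.h563.DM.window hb hA
  refine ⟨C, B, T₀, hC, by linarith, by linarith, fun T D hT hD h1 h2 => ?_⟩
  have hT0 : 0 < T := by linarith
  have hfin := zeros_finite (A := A) hT0
  have h3 := h T D hT hD h1 h2 hfin.toFinset (fun ρ hρ => by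
    obtain ⟨a1, a2, a3, -⟩ := hfin.mem_toFinset.mp hρ
    exact ⟨a1, a2, a3⟩)
  have e1 : discrete b A T D = ∑ ρ ∈ hfin.toFinset, ‖deriv riemannZeta ρ‖ ^ b * Q97.MM.wt T D ρ.im := by
    unfold discrete
    rw [finsum_mem_eq_finite_toFinset_sum _ hfin]
    rfl
  have e2 : moment b T D = Run7.h563.LS.JB b T D (1 / 2) := by
    unfold moment Run7.h563.LS.JB window Q97.MM.wt
    congr 1
    funext t
    congr 3
    push_cast
    ring
  rw [e1, e2]
  exact h3

end Pool.Agent.Results.MP_69b2e4_nt.BoundByMoments
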