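import Pool.Agent.Run7.h563.DM.F
import Pool.Agent.Y745.UP.All
import Pool.Agent.Q97.UM.Base8

set_option autoImplicit false

/-!
# The exact order of the discrete moments of `ζ'` over the zeros on and near the critical line, `0 < lam ≤ 2`

Unconditionally, for every real `0 < lam ≤ 2` the sum of `|ζ'(ρ)| ^ (2 lam)` over the distinct zeros `ρ = β + iγ` with
`0 < γ ≤ T` and `|β - 1/2| ≤ A / log T` (for `A = 0`: over the zeros on the critical line) has the order
`T (log T) ^ ((lam + 1) ^ 2)` conjectured by Gonek and Hejhal. The upper bound is new (file Run7/h563/DM/B), the lower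
bound is the starting theorem `b_LBD`.
-/

open Complex

namespace Pool.Agent.Results.MP_69b2e4_nt.ExactOrder

/-- the nontrivial zeros of zeta with ordinate in `(0, T]` at distance at most `A / log T` from the critical line -/
def zeros (A T : ℝ) : Set ℂ :=
  {s : ℂ | riemannZeta s = 0 ∧ 0 < s.re ∧ s.re < 1 ∧ 0 < s.im ∧ s.im ≤ T ∧ |s.re - 1 / 2| ≤ A / Real.log T}

/-- the discrete moment of `ζ'` over these zeros -/
noncomputable def J (lam A T : ℝ) : ℝ := ∑ᶠ s ∈ zeros A T, ‖deriv riemannZeta s‖ ^ (2 * lam)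

theorem zeros_finite (A T : ℝ) : (zeros A T).Finite := Run7.h563.DM.zs_finite (A / Real.log T) T

theorem result : ∀ lam A : ℝ, 0 < lam → lam ≤ 2 → 0 ≤ A → ∃ c C T₀ : ℝ, 0 < c ∧ 0 < C ∧ 3 ≤ T₀ ∧
    ∀ T : ℝ, T₀ ≤ T → c * (T * Real.log T ^ ((lam + 1) ^ 2)) ≤ J lam A T ∧
      J lam A T ≤ C * (T * Real.log T ^ ((lam + 1) ^ 2)) := by
  intro lam A h1 h2 hA
  have hSTRIP : Pool.Agent.Y745.UP.P_STRIP :=
    Pool.Agent.Y568.UP.t_STRIP Pool.Agent.Y732.UP.t_SUBA Pool.Agent.Y745.UP.a_OUT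
  obtain ⟨C, T₀, hC, hT₀, h⟩ := Run7.h563.DM.finite_total hSTRIP h1 h2 hA
  obtain ⟨c, T₁, hc, hT₁, h'⟩ := Run7.h563.DM.lower Pool.Agent.Q97.UM.b_LBD lam
  refine ⟨c, C, max T₀ T₁, hc, hC, hT₀.trans (le_max_left _ _), fun T hT => ?_⟩
  have hfin := zeros_finite A T
  have hlog : 0 < Real.log T := Real.log_pos (by linarith [(le_max_right T₀ T₁).trans hT])
  have h3 := h T ((le_max_left _ _).trans hT) hfin.toFinset (fun ρ hρ => hfin.mem_toFinset.mp hρ)
  have h4 := h' T ((le_max_right _ _).trans hT) hfin.toFinset (fun ρ hρ => hfin.mem_toFinset.mpr (by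
    obtain ⟨a1, a2, a3, a4, a5, a6⟩ := hρ
    exact ⟨a1, a2, a3, a4, a5, a6.trans (by positivity)⟩))
  unfold J
  rw [finsum_mem_eq_finite_toFinset_sum _ hfin]
  exact ⟨h4, h3⟩

end Pool.Agent.Results.MP_69b2e4_nt.ExactOrder
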