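import Pool.Agent.Run7.h751.ZM.Z15

set_option autoImplicit false

/-!
# Discrete moments of zeta at a small distance from its zeros

The derivative at a zero `ρ` is replaced by the value of zeta at `ρ + d`, where `d = d(T)` tends to zero so slowly that
`d log T / log² (1/d)` tends to infinity. For the nontrivial zeros with ordinate `γ` in `(T, 2T]` the mean, with multiplicity,
of `|ζ(1/2 + d + iγ)|^(2k)` is asymptotically `a(k) (2d)^(-k²)` for every real `0 < k < 2`, and for every real `k > 0` when the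
values above `(2d)^(-V)`, `V > k`, are replaced by zero. The simple zeros `ρ` on the critical line alone, even those at
distance at least `η / log T` from all other zeros, give sums of `|ζ(ρ + d)|^(2k)` between `(0.6725 - ε)` and `(1 + ε)` times
`a(k) (2d)^(-k²) N`. No hypothesis is used. In the measure on the zeros with these weights `log |ζ(1/2 + d + iγ)|` follows the
normal law with mean `k log (1/2d)` and variance `½ log (1/2d)`.
-/

namespace Pool.Agent.Results.MP_69b2e4_nt.MomentsNearZeros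

open Filter Topology

/-- the nontrivial zeros of zeta with ordinate in `(T, 2T]` -/
def zeros (T : ℝ) : Set ℂ := {s : ℂ | riemannZeta s = 0 ∧ 0 < s.re ∧ s.re < 1 ∧ T < s.im ∧ s.im ≤ 2 * T}

/-- the multiplicity of a zero -/
noncomputable def mult (s : ℂ) : ℕ := analyticOrderNatAt riemannZeta s

/-- the simple zeros on the critical line with ordinate in `(T, 2T]` and distance at least `η / log T` from every other
nontrivial zero -/
def isolated (η T : ℝ) : Set ℂ :=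
  {s : ℂ | s.re = 1 / 2 ∧ T < s.im ∧ s.im ≤ 2 * T ∧ riemannZeta s = 0 ∧ deriv riemannZeta s ≠ 0 ∧
    ∀ ρ : ℂ, riemannZeta ρ = 0 → 0 < ρ.re → ρ.re < 1 → ρ ≠ s → η / Real.log T ≤ ‖ρ - s‖}

/-- the number of the zeros, with multiplicity -/
noncomputable def N (T : ℝ) : ℝ := ∑ᶠ s ∈ zeros T, (mult s : ℝ)

/-- the modulus of zeta at distance `d` from the critical line and height `t` -/
noncomputable def z (d t : ℝ) : ℝ := ‖riemannZeta (1 / 2 + d + t * Complex.I)‖

/-- the sum of `|ζ(1/2 + d + iγ)|^(2k)` over the zeros, with multiplicity -/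
noncomputable def S (k d T : ℝ) : ℝ := ∑ᶠ s ∈ zeros T, (mult s : ℝ) * z d s.im ^ (2 * k)

/-- the part of this sum which comes from the zeros with `|ζ(1/2 + d + iγ)| ≤ c` -/
noncomputable def St (k c d T : ℝ) : ℝ :=
  ∑ᶠ s ∈ {s : ℂ | s ∈ zeros T ∧ z d s.im ≤ c}, (mult s : ℝ) * z d s.im ^ (2 * k)

/-- the sum of `|ζ(ρ + d)|^(2k)` over the isolated simple zeros `ρ` on the critical line -/
noncomputable def J (η k d T : ℝ) : ℝ := ∑ᶠ s ∈ isolated η T, ‖riemannZeta (s + d)‖ ^ (2 * k)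

/-- the part of this sum which comes from the zeros with `|ζ(ρ + d)| ≤ c` -/
noncomputable def Jt (η k c d T : ℝ) : ℝ :=
  ∑ᶠ s ∈ {s : ℂ | s ∈ isolated η T ∧ ‖riemannZeta (s + d)‖ ≤ c}, ‖riemannZeta (s + d)‖ ^ (2 * k)

/-- the coefficients of `(1 - x)^(-k)` -/
noncomputable def cf (k : ℝ) (m : ℕ) : ℝ := ∏ i ∈ Finset.range m, (k + i) / ((i : ℝ) + 1)

/-- the arithmetic factor of the moment conjecture -/
noncomputable def ak (k : ℝ) : ℝ :=
  ∏' p : Nat.Primes, ((1 - 1 / (p : ℝ)) ^ (k ^ 2) * ∑' m : ℕ, cf k m ^ 2 * (1 / (p : ℝ)) ^ m)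

/-- the normal distribution function -/
noncomputable def Phi (x : ℝ) : ℝ := (ProbabilityTheory.gaussianReal 0 1 (Set.Iic x)).toReal

/-- the admissible distances -/
structure Admissible (d : ℝ → ℝ) : Prop where
  pos : ∀ᶠ T : ℝ in atTop, 0 < d T
  tendsto_zero : Tendsto d atTop (𝓝 0)
  slow : Tendsto (fun T : ℝ => d T * Real.log T / Real.log (1 / d T) ^ 2) atTop atTop

/-- the expected size of the sums -/
noncomputable def size (k d T : ℝ) : ℝ := ak k * (2 * d) ^ (-(k ^ 2)) * N T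

open Run7.h751.ZM Pool.Agent.N748.MG

lemma zeros_eq (T : ℝ) : zeros T = H370.zset riemannZeta T (2 * T) := by
  ext s
  simp only [zeros, H370.zset, Set.mem_ofPred_eq]
  tauto

lemma sum_eq {T : ℝ} (hT : 1 ≤ T) (f : ℂ → ℝ) : ∑ᶠ s ∈ zeros T, f s = ∑ s ∈ Zs T, f s := by
  rw [zeros_eq]
  exact H370.finsum_Zf H370.good_zeta hT f

open Classical in
lemma sum_filter_eq {T : ℝ} (hT : 1 ≤ T) (P : ℂ → Prop) (f : ℂ → ℝ) :
    ∑ᶠ s ∈ {s : ℂ | s ∈ zeros T ∧ P s}, f s = ∑ s ∈ (Zs T).filter P, f s := by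
  have e : {s : ℂ | s ∈ zeros T ∧ P s} = (((Zs T).filter P : Finset ℂ) : Set ℂ) := by
    ext s
    simp only [Finset.coe_filter, Set.mem_ofPred_eq]
    rw [mem_Zs hT, zeros_eq]
  rw [e, finsum_mem_coe_finset]

lemma N_eq {T : ℝ} (hT : 1 ≤ T) : N T = ∑ s ∈ Zs T, mu s := sum_eq hT _

lemma isolated_eq {η T : ℝ} (hT : 16 ≤ T) (hη : η ≤ 1) :
    isolated η T = ((Pool.Agent.Q97.UM.ZI η T : Finset ℂ) : Set ℂ) := by
  ext s
  simp only [SetLike.mem_coe, Pool.Agent.Q97.UM.mem_ZI_iff hT hη]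
  rfl

/-- on the critical line the shifted zero is the point at distance `d` from the line -/
lemma shift_eq {η T : ℝ} {s : ℂ} (hs : s ∈ Pool.Agent.Q97.UM.ZI η T) (δ : ℝ) :
    ‖riemannZeta (s + δ)‖ = mz δ s.im := by
  have h : s.re = 1 / 2 := by
    unfold Pool.Agent.Q97.UM.ZI at hs
    exact (Finset.mem_filter.1 hs).2.1
  have e : s + (δ : ℂ) = 1 / 2 + δ + s.im * Complex.I := by
    apply Complex.ext
    · simp [h]
    · simp
  show ‖riemannZeta (s + δ)‖ = ‖riemannZeta (pw δ s.im)‖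
  rw [e]
  rfl

lemma J_eq {η T : ℝ} (hT : 16 ≤ T) (hη : η ≤ 1) (k δ : ℝ) :
    J η k δ T = ∑ s ∈ Pool.Agent.Q97.UM.ZI η T, mz δ s.im ^ (2 * k) := by
  unfold J
  rw [isolated_eq hT hη, finsum_mem_coe_finset]
  exact Finset.sum_congr rfl fun s hs => by rw [shift_eq hs]

open Classical in
lemma Jt_eq {η T : ℝ} (hT : 16 ≤ T) (hη : η ≤ 1) (k c δ : ℝ) :
    Jt η k c δ T = ∑ s ∈ (Pool.Agent.Q97.UM.ZI η T).filter (fun s => mz δ s.im ≤ c), mz δ s.im ^ (2 * k) := by
  unfold Jt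
  have e : {s : ℂ | s ∈ isolated η T ∧ ‖riemannZeta (s + δ)‖ ≤ c} =
      (((Pool.Agent.Q97.UM.ZI η T).filter (fun s => mz δ s.im ≤ c) : Finset ℂ) : Set ℂ) := by
    ext s
    rw [isolated_eq hT hη]
    simp only [Finset.coe_filter, Set.mem_ofPred_eq, SetLike.mem_coe]
    constructor
    · rintro ⟨a, b⟩
      exact ⟨a, by rw [← shift_eq a]; exact b⟩
    · rintro ⟨a, b⟩
      exact ⟨a, by rw [shift_eq a]; exact b⟩
  rw [e, finsum_mem_coe_finset]
  exact Finset.sum_congr rfl fun s hs => by rw [shift_eq (Finset.mem_filter.1 hs).1]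

lemma pt {a q W M I ε e c' : ℝ} (ha : 0 < a) (hq : 0 < q) (hM : 0 < M) (he : 0 < e) (he1 : e ≤ 1 / 10)
    (he2 : e ≤ ε / 2) (hc : 0.6725 ≤ c') (h1 : |q * W / M - a| ≤ e * a) (h2 : (c' - e) * W ≤ I) (h3 : I ≤ W) :
    (0.6725 - ε) * (a * q⁻¹ * M) ≤ I ∧ I ≤ (1 + ε) * (a * q⁻¹ * M) := by
  obtain ⟨U, hU⟩ : ∃ U : ℝ, U = a * q⁻¹ * M := ⟨_, rfl⟩
  have hU0 : 0 < U := by rw [hU]; positivity
  rw [← hU]
  have hW : W = (q * W / M) * (q⁻¹ * M) := by field_simp
  have hqM : 0 < q⁻¹ * M := by positivity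
  have h4 := (abs_le.1 h1).1
  have h5 := (abs_le.1 h1).2
  have h6 : (1 - e) * U ≤ W := by
    have h7 : (1 - e) * a ≤ q * W / M := by linarith
    have h8 := mul_le_mul_of_nonneg_right h7 hqM.le
    rw [← hW] at h8
    rw [hU]
    calc (1 - e) * (a * q⁻¹ * M) = (1 - e) * a * (q⁻¹ * M) := by ring
      _ ≤ W := h8
  have h9 : W ≤ (1 + e) * U := by
    have h7 : q * W / M ≤ (1 + e) * a := by linarith
    have h8 := mul_le_mul_of_nonneg_right h7 hqM.le
    rw [← hW] at h8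
    rw [hU]
    calc W ≤ (1 + e) * a * (q⁻¹ * M) := h8
      _ = _ := by ring
  have hW0 : 0 ≤ W := by
    have : 0 ≤ (1 - e) * U := mul_nonneg (by linarith) hU0.le
    linarith
  constructor
  · have h10 : (0.6725 - e) * W ≤ (c' - e) * W := mul_le_mul_of_nonneg_right (by linarith) hW0
    have h11 : (0.6725 - e) * ((1 - e) * U) ≤ (0.6725 - e) * W :=
      mul_le_mul_of_nonneg_left h6 (by norm_num at he1 ⊢; linarith)
    have h12 : (0.6725 - ε) * U ≤ (0.6725 - e) * ((1 - e) * U) := by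
      rw [← mul_assoc]
      refine mul_le_mul_of_nonneg_right ?_ hU0.le
      nlinarith [mul_pos he he]
    linarith
  · have h10 : (1 + e) * U ≤ (1 + ε) * U := mul_le_mul_of_nonneg_right (by linarith) hU0.le
    linarith

lemma Npos : ∀ᶠ T : ℝ in atTop, 0 < ∑ s ∈ Zs T, mu s := by
  filter_upwards [count inp.sa (3 / 100) (by norm_num), XX_pos] with T h hX
  have hXX : XX T = T * Real.log T := rfl
  rw [← hXX] at h
  have h1 := (abs_le.1 h).1
  have hpi := Real.pi_gt_three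
  have hpi2 := Real.pi_lt_d2
  have h2 : XX T / 6.3 ≤ XX T / (2 * Real.pi) := by
    apply div_le_div_of_nonneg_left hX.le (by positivity)
    norm_num at hpi2 ⊢
    linarith
  have h3 : XX T / 6.3 = XX T * (10 / 63) := by ring
  linarith

lemma near {f : ℝ → ℝ} {a e : ℝ} (h : Tendsto f atTop (𝓝 a)) (he : 0 < e) : ∀ᶠ T in atTop, |f T - a| ≤ e := by
  filter_upwards [(Metric.tendsto_nhds.1 h) e he] with T hT
  rw [Real.dist_eq] at hT
  exact hT.le

theorem result (d : ℝ → ℝ) (hd : Admissible d) (k : ℝ) (hk : 0 < k) : 0 < ak k ∧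
    (k < 2 → Tendsto (fun T => (2 * d T) ^ (k ^ 2) * (S k (d T) T / N T)) atTop (𝓝 (ak k)) ∧
      ∀ ε : ℝ, 0 < ε → ∃ η : ℝ, 0 < η ∧ ∀ᶠ T : ℝ in atTop,
        (0.6725 - ε) * size k (d T) T ≤ J η k (d T) T ∧ J η k (d T) T ≤ (1 + ε) * size k (d T) T) ∧
    (∀ V : ℝ, k < V →
      Tendsto (fun T => (2 * d T) ^ (k ^ 2) * (St k ((2 * d T) ^ (-V)) (d T) T / N T)) atTop (𝓝 (ak k)) ∧
      ∀ ε : ℝ, 0 < ε → ∃ η : ℝ, 0 < η ∧ ∀ᶠ T : ℝ in atTop,
        (0.6725 - ε) * size k (d T) T ≤ Jt η k ((2 * d T) ^ (-V)) (d T) T ∧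
        Jt η k ((2 * d T) ^ (-V)) (d T) T ≤ (1 + ε) * size k (d T) T) ∧
    (∀ x : ℝ, Tendsto (fun T => (2 * d T) ^ (k ^ 2) *
      (St k ((2 * d T) ^ (-k) * Real.exp (x * Real.sqrt (Real.log (1 / (2 * d T)) / 2))) (d T) T / N T)) atTop
      (𝓝 (ak k * Phi x))) := by
  classical
  have hA : Ad d := ⟨hd.pos, hd.tendsto_zero, hd.slow⟩
  obtain ⟨ha, hak⟩ := aC_akR k
  have hre : (aC (k : ℂ)).re = ak k := by
    rw [hak, Complex.ofReal_re]
    rfl
  have hc : (0.6725 : ℝ) ≤ 2 - H370.cMTinv := by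
    have h1 : H370.cMTinv ≤ 1.3274995 := Pool.Agent.Q97.UM.cMT_strict
    norm_num at h1 ⊢
    linarith
  have eS : ∀ T δ : ℝ, 1 ≤ T → S k δ T = ∑ s ∈ Zs T, mu s * mz δ s.im ^ (2 * k) := fun T δ hT => sum_eq hT _
  have eSt : ∀ T δ c : ℝ, 1 ≤ T → St k c δ T = ∑ s ∈ (Zs T).filter (fun s => mz δ s.im ≤ c), mu s * mz δ s.im ^ (2 * k) :=
    fun T δ c hT => sum_filter_eq hT _ _
  refine ⟨ha, fun h2 => ⟨?_, fun ε hε => ?_⟩, fun V hV => ⟨?_, fun ε hε => ?_⟩, fun x => ?_⟩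
  · have h := mom_f inp hA hk h2
    rw [hre] at h
    refine h.congr' ?_
    filter_upwards [eventually_ge_atTop 1] with T hT
    rw [eS T _ hT, N_eq hT, mul_div_assoc]
  · obtain ⟨e, he⟩ : ∃ e : ℝ, e = min (1 / 10) (ε / 2) := ⟨_, rfl⟩
    have he0 : 0 < e := by rw [he]; positivity
    have he1 : e ≤ 1 / 10 := by rw [he]; exact min_le_left _ _
    have he2 : e ≤ ε / 2 := by rw [he]; exact min_le_right _ _
    have h := mom_f inp hA hk h2
    rw [hre] at h
    obtain ⟨η, hη, hη1, h3⟩ := share_f inp hA hk h2 he0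
    refine ⟨η, hη, ?_⟩
    filter_upwards [h3, near h (mul_pos he0 ha), eventually_ge_atTop 16, hd.pos, Npos] with T a1 a2 hT hδ hN
    obtain ⟨-, a3, -⟩ := a1
    have hT1 : 1 ≤ T := by linarith
    have hq : (2 * d T) ^ (-(k ^ 2)) = ((2 * d T) ^ (k ^ 2))⁻¹ := Real.rpow_neg (by linarith) _
    unfold size
    rw [J_eq hT hη1, N_eq hT1, hq]
    refine pt ha (Real.rpow_pos_of_pos (by linarith) _) hN he0 he1 he2 hc a2 a3 ?_
    unfold Pool.Agent.Q97.UM.ZI
    refine (Finset.sum_le_sum (g := fun s => mu s * mz (d T) s.im ^ (2 * k)) fun s hs => ?_).trans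
      (Finset.sum_le_sum_of_subset_of_nonneg (Finset.filter_subset _ _) fun s _ _ => mul_nonneg (mu_nn s) (mzk_nn _ _ _))
    exact le_mul_of_one_le_left (mzk_nn _ _ _) (mu_one hT1 (Finset.mem_filter.1 hs).1)
  · have h := mom_t inp hA hk hV
    rw [hre] at h
    refine h.congr' ?_
    filter_upwards [eventually_ge_atTop 1] with T hT
    rw [eSt T _ _ hT, N_eq hT, ← mul_div_assoc]
    rfl
  · obtain ⟨e, he⟩ : ∃ e : ℝ, e = min (1 / 10) (ε / 2) := ⟨_, rfl⟩
    have he0 : 0 < e := by rw [he]; positivity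
    have he1 : e ≤ 1 / 10 := by rw [he]; exact min_le_left _ _
    have he2 : e ≤ ε / 2 := by rw [he]; exact min_le_right _ _
    have h := mom_t inp hA hk hV
    rw [hre] at h
    obtain ⟨η, hη, hη1, h3⟩ := share_t inp hA hk hV he0
    refine ⟨η, hη, ?_⟩
    filter_upwards [h3, near h (mul_pos he0 ha), eventually_ge_atTop 16, hd.pos, Npos] with T a1 a2 hT hδ hN
    obtain ⟨-, a3, -⟩ := a1
    have hT1 : 1 ≤ T := by linarith
    have hq : (2 * d T) ^ (-(k ^ 2)) = ((2 * d T) ^ (k ^ 2))⁻¹ := Real.rpow_neg (by linarith) _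
    unfold size
    rw [Jt_eq hT hη1, N_eq hT1, hq]
    refine pt ha (Real.rpow_pos_of_pos (by linarith) _) hN he0 he1 he2 hc a2 a3 ?_
    unfold Pool.Agent.Q97.UM.ZI Zt
    refine (Finset.sum_le_sum (g := fun s => mu s * mz (d T) s.im ^ (2 * k)) fun s hs => ?_).trans
      (Finset.sum_le_sum_of_subset_of_nonneg (Finset.filter_subset_filter _ (Finset.filter_subset _ _))
        fun s _ _ => mul_nonneg (mu_nn s) (mzk_nn _ _ _))
    exact le_mul_of_one_le_left (mzk_nn _ _ _) (mu_one hT1 (Finset.mem_filter.1 (Finset.mem_filter.1 hs).1).1)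
  · have h := mom_lev inp hA hk x
    rw [hre] at h
    refine h.congr' ?_
    filter_upwards [eventually_ge_atTop 1] with T hT
    rw [eSt T _ _ hT, N_eq hT, ← mul_div_assoc]
    rfl

end Pool.Agent.Results.MP_69b2e4_nt.MomentsNearZeros
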